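import Pool.Agent.T9h16.Rand.Final2

/-!
# Refuting random `k`-SAT with no NOT gate and with one NOT gate

A refuter is a Boolean circuit which gets a set of `k`-clauses over `n` variables, one input bit for
each of the possible clauses, and has to reject every satisfiable set.  A random formula `φ` has `m`
independent uniformly random clauses `φ 1, ..., φ m`.

* Monotone circuits of polynomial size refute random `k`-SAT with `m ≥ C n ^ (k - 1)` clauses, but
  monotone circuits of size `2 ^ (n ^ δ)` do not if `m ≤ n ^ (k - 1 - ε)`, even with the help of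
  nondeterministic guesses.
* One NOT gate is as good as any number of them if `m` is at most `n ^ (k / 2)`.
-/

set_option autoImplicit false

namespace Pool.Agent.Results.MP_8a52c3_lc.RandomSatRefutation

open Pool.Agent.T9h16.Rand (Clause Sat Satisfiable)
open Pool.Agent.LN (Circuit)
open scoped Classical

/-- The circuit `C` accepts the set `F` of clauses: its value is true if exactly the input variables
in `F` are true. -/
def Accepts {n k : ℕ} (C : Circuit (Clause n k)) (F : Set (Clause n k)) : Prop :=
  C.eval (fun c => decide (c ∈ F)) = true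

/-- The number of assignments `x` for which the circuit wrongly accepts the (satisfiable) set of all
clauses that `x` satisfies. -/
noncomputable def errors {n k : ℕ} (C : Circuit (Clause n k)) : ℕ :=
  {x : Fin n → Bool | Accepts C {c | Sat x c}}.ncard

/-- There is a constant `K` such that for all `k ≥ 2`, `n`, `m`:

1. (structure) let `w ≥ 1`, `m (K k ^ 3 w ^ 3 (log₂ n + 1)) ^ k ≤ n ^ (k - 1)` and let `C` be a
   circuit without NOT gates, `size ≤ 2 ^ w`, which rejects every satisfiable set of clauses, or at
   least makes errors for at most a `2 ^ (- k w - 1)` fraction of the assignments `x`.  Then at most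
   a fraction `size / 2 ^ w` of the formulas `φ` is accepted by `C` although all subformulas of `φ`
   with at most `w` clauses are satisfiable;
2. (no NOT gate) if `m (K k ^ 3 (log₂ (n + s + q) + 1) ^ 3 (log₂ n + 1)) ^ k ≤ n ^ (k - 1)`, then for
   any at most `q` circuits without NOT gates, with at most `s` gates, which reject every satisfiable
   set, or at least make errors for at most a `(n + s + q) ^ (- K k)` fraction of the assignments, at
   most a fraction `1 / n` of the formulas `φ` is accepted by one of them;
3. (upper bound) if `n ≥ 4`, `k - 2 ≤ t ≤ n / 2` and `(K k) ^ (2 k) n ^ (k - 1) ≤ m t ^ (k - 2)`,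
   then there is a circuit without NOT gates and with at most `2 ^ t (n + 1) ^ (K k)` gates which
   rejects every satisfiable set and accepts all but a fraction `2 ^ (- n)` of the formulas `φ`;
4. (one NOT gate) for every circuit `C`, with any number of NOT gates, there is a circuit `C'` with
   at most one NOT gate and at most `2 size + 10 (M + 1) ^ 3` gates, `M` the number of all
   `k`-clauses, which accepts only sets which `C` accepts, and accepts all the formulas `φ` which `C`
   accepts but a fraction `m ^ 2 / (2 M)` of all formulas. -/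
theorem result : ∃ K : ℕ, ∀ k n m : ℕ, 2 ≤ k →
    (∀ w : ℕ, 1 ≤ w → m * (K * k ^ 3 * w ^ 3 * (Nat.log 2 n + 1)) ^ k ≤ n ^ (k - 1) →
      ∀ C : Circuit (Clause n k), C.nots = 0 → C.size ≤ 2 ^ w →
        errors C * 2 ^ (k * w + 1) ≤ 2 ^ n →
        {φ : Fin m → Clause n k | Accepts C (Set.range φ) ∧
          ∀ S : Finset (Clause n k), S.card ≤ w → (S : Set (Clause n k)) ⊆ Set.range φ →
            Satisfiable (S : Set (Clause n k))}.ncard * 2 ^ w ≤
          C.size * Nat.card (Fin m → Clause n k)) ∧
    (∀ s q : ℕ, m * (K * k ^ 3 * (Nat.log 2 (n + s + q) + 1) ^ 3 * (Nat.log 2 n + 1)) ^ k ≤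
        n ^ (k - 1) →
      ∀ (U : Type) [Fintype U] (C : U → Circuit (Clause n k)), Fintype.card U ≤ q →
        (∀ u, (C u).nots = 0 ∧ (C u).size ≤ s ∧
          errors (C u) * (n + s + q) ^ (K * k) ≤ 2 ^ n) →
        {φ : Fin m → Clause n k | ∃ u, Accepts (C u) (Set.range φ)}.ncard * n ≤
          Nat.card (Fin m → Clause n k)) ∧
    (∀ t : ℕ, 4 ≤ n → k - 2 ≤ t → 2 * t ≤ n →
      (K * k) ^ (2 * k) * n ^ (k - 1) ≤ m * t ^ (k - 2) →
      ∃ C : Circuit (Clause n k), C.nots = 0 ∧ C.size ≤ 2 ^ t * (n + 1) ^ (K * k) ∧
        (∀ F : Set (Clause n k), Satisfiable F → ¬ Accepts C F) ∧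
        {φ : Fin m → Clause n k | ¬ Accepts C (Set.range φ)}.ncard * 2 ^ n ≤
          Nat.card (Fin m → Clause n k)) ∧
    ∀ C : Circuit (Clause n k), ∃ C' : Circuit (Clause n k), C'.nots ≤ 1 ∧
      C'.size ≤ 2 * C.size + 10 * (Nat.card (Clause n k) + 1) ^ 3 ∧
      (∀ F : Set (Clause n k), Accepts C' F → Accepts C F) ∧
      {φ : Fin m → Clause n k | Accepts C (Set.range φ) ∧ ¬ Accepts C' (Set.range φ)}.ncard *
        (2 * Nat.card (Clause n k)) ≤ m ^ 2 * Nat.card (Fin m → Clause n k) := by
  refine ⟨655360, fun k n m hk => ⟨?_, ?_, ?_, ?_⟩⟩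
  · intro w hw hm C hC hs he
    exact Pool.Agent.T9h16.Rand.part1 le_rfl hk hw hm C hC hs he
  · intro s q hm U _ C hU hC
    exact Pool.Agent.T9h16.Rand.part2 le_rfl hk hm U C hU hC
  · intro t hn hkt ht h
    exact Pool.Agent.T9h16.Rand.part3 (K := 655360) (by norm_num) hk hn hkt ht h
  · intro C
    exact Pool.Agent.T9h16.Rand.part4 C

end Pool.Agent.Results.MP_8a52c3_lc.RandomSatRefutation
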